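import Pool.Agent.V7H47.MN.Num

/-!
# Monotone nondeterministic logarithmic space does not contain the monotone functions of a
# deterministic context-free language

Non-uniform NL is the class of the languages whose slices (sets of words of length `N`) have
nondeterministic branching programs of polynomial size. In its monotone version the programs are
monotone, that is, they are rectifier networks: the edges carry no negated variables. A language `L`
over the alphabet `A` and a length `N` give the monotone Boolean function of the bits `[a ∈ W i]`
(`i < N`, `a ∈ A`) which is one if and only if `L` contains some word `w` of length `N` with
`w i ∈ W i` for all `i`. So the places of the word are given by partial information. For every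
context-free language `L` this is again a context-free language, over the alphabet of the subsets of
`A`: the pushdown automaton guesses a letter of the set it reads.

The theorem: for some `L` in 1-DPDA (without `ε`-moves) these functions need monotone
nondeterministic branching programs of size `N ^ (c log N)`, for all large `N`. (The size is the number
of the nodes, and an edge can carry an OR of variables. The divide and conquer algorithm of Lewis,
Stearns and Hartmanis gives monotone programs of size `N ^ (O (log N))` for all context-free
languages, and these functions have monotone circuits of polynomial size, even monotone semi-unbounded
circuits of logarithmic depth for the inputs used in the proof.) This contains the lower bound for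
nondeterministic read-once branching programs, because these are monotone in the sense used here.

The automaton is the one of ReadOnceBranchingH42 (`V7H42.PD.Automaton`); the words come from the
consistent labellings of a complete ternary tree of height `m` by `n` labels.

The proof is a lifting theorem for monotone nondeterministic branching programs. Let a labelling `ψ`
be given to Alice, and for every vertex a set `R` of labels (the labels that have been reached, not
the label of the root) to Bob; they form an accepted and a rejected input. For a node `v` of the
program with `s` nodes consider the labellings for which `v` is reached and the sets `R` for which
`v` is not reached. Up to errors of measure `n ^ (-κ/3)` (on the side of Alice) the labellings split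
into pieces which fix the labels of at most `κ` vertices and are dense elsewhere; for every such piece
and every pattern of reached labels at these `κ` vertices which is not rare, all patterns at the few
vertices that matter in the next step occur, by hypercontractivity. So the piece defines a
configuration, a predicate on the assignments `vertex ↦ reached or not` which depends on at most `κ`
vertices only, and the configuration at `v` follows from the configuration at the previous node of
the path and one clause of the pebbling contradiction of the tree. But there is no such sequence of
configurations from the true one to the false one if `κ < m` (`space`): a semantic version of the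
bound for black and white pebbles. Hence `s ^ 2 ≥ (n ^ (1/3)) ^ (m - 1)`.
-/

set_option autoImplicit false

namespace Pool.Agent.Results.MP_9277c3_lc.MonotoneBranchingH47

open Pool.Agent.V7H42.PD Pool.Agent.V7H47.MN

/-- The transition sets of the guessing automaton are finite. -/
theorem guess_finite {A Q Γ : Type} [Finite A] (M : DPDA A Q Γ) (q : Q) (x : Option Γ) (W : Set A) :
    ((guess M).step q x W).Finite := by
  refine Set.Finite.subset (Set.finite_range (fun a : A => (M.step q x a).getD (M.start, []))) ?_
  rintro r ⟨a, -, ha⟩
  exact ⟨a, by simp only [ha, Option.getD_some]⟩

/-- **Monotone NL does not contain the monotone version of 1-DPDA.** There is a one-way deterministic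
pushdown automaton `M` (without `ε`-moves) with the following properties.
(1) For all `N ≥ 2 ^ 432`, every monotone nondeterministic branching program that accepts exactly
those `W : Fin N → Set A` (with nonempty sets `W i`) for which `M` accepts some `w` with `w i ∈ W i`
has at least `2 ^ ((log₂ N) ^ 2 / 1000)` nodes, that is, `N ^ (c log N)` with an absolute constant `c`.
(2) So there are no such programs of polynomial size.
(3) These words `W` form the language of a one-way nondeterministic pushdown automaton, with finite
transition sets, over the alphabet of the subsets of `A`.
(4) Every nondeterministic read-once branching program for the words of length `N` accepted by `M` is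
such a monotone program. -/
theorem result : ∃ (A Q Γ : Type) (_ : Fintype A) (_ : Fintype Q) (_ : Fintype Γ)
    (M : DPDA A Q Γ),
    (∀ N : ℕ, 2 ^ 432 ≤ N → ∀ (S : Type) [Fintype S] (B : NBP (Fin N) A S), MRecognizes B M →
      2 ^ ((Nat.log 2 N) ^ 2 / 1000) ≤ Fintype.card S) ∧
    (¬ ∃ e : ℕ, ∀ N : ℕ, ∃ (S : Type) (_ : Fintype S) (B : NBP (Fin N) A S),
      MRecognizes B M ∧ Fintype.card S ≤ N ^ e + e) ∧
    (∃ P : NPDA (Set A) Q Γ, (∀ q x W, (P.step q x W).Finite) ∧
      ∀ (N : ℕ) (W : Fin N → Set A), P.Accepts (List.ofFn W) ↔
        ∃ w : Fin N → A, (∀ i, w i ∈ W i) ∧ M.Accepts (List.ofFn w)) ∧
    (∀ (N : ℕ) (S : Type) (B : NBP (Fin N) A S), B.ReadOnce → Recognizes B M →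
      MRecognizes B M) :=
  ⟨Lt, Bool × Bool, Bool, inferInstance, inferInstance, inferInstance, aut,
    fun N hN S _ B hB => lower_all N hN S B hB, super_all,
    ⟨guess aut, fun q x W => guess_finite aut q x W, fun _ W => guess_accepts_ofFn aut W⟩,
    fun _ _ _ hR hB => mrecognizes_of_readOnce hR hB⟩

end Pool.Agent.Results.MP_9277c3_lc.MonotoneBranchingH47
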