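import Pool.Agent.V7H42.PD.Final

/-!
# A deterministic context-free language without small nondeterministic read-once branching programs

Non-uniform NL is the class of the languages `L` such that the sets of the words of length `N` in `L`
have nondeterministic branching programs of polynomial size.  The theorem: for read-once branching
programs (on every path from the source to the sink every place of the input is tested at most once)
already 1-DPDA, even without `ε`-moves, is not contained in this class.  For infinitely many `N` the
size is at least `N ^ (c log N)`; this is optimal up to `c`, as the divide and conquer algorithm of
Lewis, Stearns and Hartmanis can be implemented with read-once branching programs.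

The automaton works on lists of items.  An item begins with a letter which says whether it is chosen
or skipped, and the rest of the item is a program for the stack, which is executed if the item is
chosen; exactly one item of every list must be chosen.  In the words considered there is a list for
every node of a complete ternary tree of height `m`, in preorder, with an item for every
`(a; b_0, b_1, b_2)` in `{0, …, n - 1} ^ 4`, which pops `a` tokens (the label of the node, pushed by
its parent) and pushes `b_0`, `b_1`, `b_2` tokens (the labels of its children).  So the accepted
words of this form are the consistent labellings of the tree by `n` labels.

The lower bound: in a read-once branching program the accepting paths through a node `s` read the same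
places before `s`, and it follows by exchanging the parts after `s` that these places determine a
fixed set `I` of nodes of the tree, and that all these labellings agree on the labels of the edges
which leave `I`.  By a lower bound for the cutwidth of the ternary tree, every order in which
the nodes of the tree are read has a prefix `I` with at least `m` such edges.  So at least `n ^ m`
nodes of the branching program are needed.
-/

set_option autoImplicit false

namespace Pool.Agent.Results.MP_9277c3_lc.ReadOnceBranchingH42

open Pool.Agent.V7H42.PD

/-- **1-DPDA and nondeterministic read-once branching programs.**  There is a one-way deterministic
pushdown automaton `M` (without `ε`-moves) with the following property.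
(1) For every `m ≥ 1` there is a length `N ≤ 3 ^ (10 m)` such that every nondeterministic read-once
branching program which accepts exactly the words of length `N` accepted by `M` has at least
`3 ^ (m ^ 2)` nodes, that is, `N ^ (c log N)` with an absolute constant `c`.
(2) So the words of length `N` accepted by `M` cannot be recognized by nondeterministic read-once
branching programs of polynomial size. -/
theorem result : ∃ (A Q Γ : Type) (_ : Fintype A) (_ : Fintype Q) (_ : Fintype Γ)
    (M : DPDA A Q Γ),
    (∀ m : ℕ, 1 ≤ m → ∃ N : ℕ, N ≤ 3 ^ (10 * m) ∧
      ∀ (S : Type) [Fintype S] (B : NBP (Fin N) A S), B.ReadOnce → Recognizes B M →
        3 ^ (m ^ 2) ≤ Fintype.card S) ∧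
    ¬ ∃ e : ℕ, ∀ N : ℕ, ∃ (S : Type) (_ : Fintype S) (B : NBP (Fin N) A S),
      B.ReadOnce ∧ Recognizes B M ∧ Fintype.card S ≤ N ^ e + e := by
  refine ⟨Lt, Bool × Bool, Bool, inferInstance, inferInstance, inferInstance, aut, ?_, ?_⟩
  · intro m hm
    refine ⟨(full (3 ^ m) m).length, length_full hm, fun S _ B hR hB => ?_⟩
    have := card_ge (by positivity) hR hB
    rwa [← pow_mul, ← pow_two] at this
  · rintro ⟨e, he⟩
    obtain ⟨m, hm, hs⟩ := super e
    obtain ⟨S, _, B, hR, hB, hc⟩ := he (full (3 ^ m) m).length
    have h1 := card_ge (by positivity) hR hB
    have h2 : (full (3 ^ m) m).length ^ e ≤ (3 ^ (10 * m)) ^ e :=
      Nat.pow_le_pow_left (length_full hm) e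
    omega

end Pool.Agent.Results.MP_9277c3_lc.ReadOnceBranchingH42
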