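import Pool.Agent.V7H64.SP.Final

/-!
# MP_9277c3_lc, Q1 (the pair 1-DPDA, L): small space for deterministic pushdown automata in terms of
the Strahler number of the run

Let `M` be a one-way deterministic pushdown automaton (with moves that do not read) which halts in
polynomial time on every input; every deterministic context-free language is accepted by such an
automaton, even one that halts in linear time.  The cells of the stack of a run form a tree: the
children of a cell are the cells which are put directly on top of it during its lifetime.  Let
`number w` be the Strahler number of this tree for the run on the input `w`, and `peaks w` the number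
of its leaves, that is, the number of the peaks of the height of the stack.

* `M` is simulated, on every input `w`, in space `O ((number w + 1) log |w|)`.  As
  `2 ^ number w ≤ peaks w`, this is at most `O ((log (peaks w) + 1) log |w|)`.  For arbitrary `M` this
  is the bound `(log n)²` of Lewis, Stearns and Hartmanis; for automata with a bounded number of turns
  it is the bound `log n`; for automata with `(log n) ^ O(1)` turns it is `log n · log log n`.
* The words which are accepted by `M` with a Strahler number at most `k` form a language in L, for
  every `k`.  So every deterministic context-free language is the union of an increasing sequence of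
  languages in L, the first `O (log n)` of which contain all its words of length `n`.  In particular
  1-DPDA languages are in L if the Strahler numbers of their accepting runs are bounded.

Proof.  A recursive procedure with the parameter `k` finds the state and the position in which a
given cell is removed, or finds out that the Strahler number of the cell is larger than `k`.  It calls
itself with `k - 1` for the cells put on top; if this fails then the cell put on top is heavy, and the
procedure goes up to it without storing the symbol below, only the number of such steps is counted.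
When the heavy cell is removed, the symbol below it is found by a second simulation, from the
beginning of the procedure up to the level in question.  On a level on which there is a second heavy
cell the procedure fails.  So the recursion depth is `k`, and each level of the recursion needs a
bounded number of counters.
-/

set_option autoImplicit false

namespace Pool.Agent.Results.MP_9277c3_lc.StrahlerSpaceH64

open Pool.Agent.V7H64.SP

/-- Let `M` be a deterministic pushdown automaton over a finite alphabet which halts in polynomial
time on every input.

1. Every run has exactly one Strahler number `number w` and exactly one number `peaks w` of peaks,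
   and `2 ^ number w ≤ peaks w ≤ (|w| + 2) ^ c`.
2. The language of `M` is decided by one program with polynomially bounded registers and with at most
   `number w + 1` frames besides the first one, so in space `O ((number w + 1) log |w|)`.
3. The same with `log₂ (peaks w) + 1`.
4. For every `k` the words accepted by `M` with a Strahler number at most `k` form a language in L.
5. If the Strahler numbers of the accepting runs of `M` are bounded, then the language of `M` is
   in L. -/
theorem result {S : Type} [Finite S] (M : DPDA S) (c : ℕ)
    (hM : ∀ w : List S, M.HaltsIn w ((w.length + 2) ^ c)) :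
    (∀ w, M.Run w (M.number w) (M.peaks w) ∧
      (∀ σ p, M.Run w σ p → σ = M.number w ∧ p = M.peaks w) ∧
      2 ^ M.number w ≤ M.peaks w ∧ M.peaks w ≤ (w.length + 2) ^ c) ∧
    DecidedWith (fun w => M.number w + 1) {w | M.Accepts w} ∧
    DecidedWith (fun w => Nat.log 2 (M.peaks w) + 1) {w | M.Accepts w} ∧
    (∀ k, InLogSpace {w | M.Accepts w ∧ M.number w ≤ k}) ∧
    (∀ k, (∀ w, M.Accepts w → M.number w ≤ k) → InLogSpace {w | M.Accepts w}) := by
  have key : ∀ w, ∃ r j t, t ≤ (w.length + 2) ^ c ∧
      M.Cell w M.start M.bottom 0 [] r j (M.number w) t (M.peaks w) ∧
      (M.Accepts w ↔ M.final r = true) := by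
    intro w
    obtain ⟨r, j, σ, t, p, ht, hc, ha⟩ := exists_run (hM w)
    have huniq : ∀ σ' p', M.Run w σ' p' → σ' = σ ∧ p' = p := by
      rintro σ' p' ⟨r', j', t', h'⟩
      obtain ⟨-, -, h1, -, h2⟩ := cell_det hc h'
      exact ⟨h1.symm, h2.symm⟩
    have h1 : M.number w = σ := by
      have : {σ' | ∃ p', M.Run w σ' p'} = {σ} := by
        ext x
        constructor
        · rintro ⟨p', hx⟩
          exact (huniq _ _ hx).1
        · rintro rfl
          exact ⟨p, r, j, t, hc⟩
      unfold DPDA.number
      rw [this]
      exact csInf_singleton σ
    have h2 : M.peaks w = p := by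
      have : {p' | ∃ σ', M.Run w σ' p'} = {p} := by
        ext x
        constructor
        · rintro ⟨σ', hx⟩
          exact (huniq _ _ hx).2
        · rintro rfl
          exact ⟨σ, r, j, t, hc⟩
      unfold DPDA.peaks
      rw [this]
      exact csInf_singleton p
    rw [h1, h2]
    exact ⟨r, j, t, ht, hc, ha⟩
  have hpow : ∀ w, 2 ^ M.number w ≤ M.peaks w := by
    intro w
    obtain ⟨r, j, t, ht, hc, ha⟩ := key w
    simpa using cell_pow hc
  have hk : ∀ k, InLogSpace {w | M.Accepts w ∧ M.number w ≤ k} := by
    intro k
    refine ⟨k + 1, progK M k, c + k, fun w => ?_⟩
    obtain ⟨r, j, t, ht, hc, ha⟩ := key w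
    have hle : (w.length + 2) ^ c ≤ (w.length + 2) ^ (c + k) :=
      Nat.pow_le_pow_right (by omega) (by omega)
    have hkb : k ≤ (w.length + 2) ^ (c + k) := by
      have h1 : k < 2 ^ k := Nat.lt_two_pow_self
      have h2 : 2 ^ k ≤ (w.length + 2) ^ k := Nat.pow_le_pow_left (by omega) k
      have h3 : (w.length + 2) ^ k ≤ (w.length + 2) ^ (c + k) :=
        Nat.pow_le_pow_right (by omega) (by omega)
      omega
    refine ⟨_, progK_spec hc (ht.trans hle) hkb, ?_⟩
    rw [Bool.and_eq_true, decide_eq_true_iff, Set.mem_setOf_eq, ha]
    exact and_comm
  refine ⟨fun w => ?_, ?_, ?_, hk, ?_⟩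
  · obtain ⟨r, j, t, ht, hc, ha⟩ := key w
    refine ⟨⟨r, j, t, hc⟩, ?_, hpow w, (cell_pos hc).2.2.2.trans ht⟩
    rintro σ p ⟨r', j', t', h'⟩
    obtain ⟨-, -, h1, -, h2⟩ := cell_det hc h'
    exact ⟨h1.symm, h2.symm⟩
  · refine ⟨progA M, c, fun w => ?_⟩
    obtain ⟨r, j, t, ht, hc, ha⟩ := key w
    exact ⟨_, progA_spec hc ht, ha.symm⟩
  · refine ⟨progA M, c, fun w => ?_⟩
    obtain ⟨r, j, t, ht, hc, ha⟩ := key w
    obtain ⟨ψ, h1, h2⟩ := progA_spec hc ht
    have hlog : M.number w ≤ Nat.log 2 (M.peaks w) :=
      Nat.le_log_of_pow_le (by omega) (hpow w)
    exact ⟨_, ⟨ψ, h1.mono le_rfl _ (Nat.succ_le_succ hlog), h2⟩, ha.symm⟩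
  · intro k h
    have : {w | M.Accepts w} = {w | M.Accepts w ∧ M.number w ≤ k} := by
      ext w
      exact ⟨fun hw => ⟨hw, h w hw⟩, fun hw => hw.1⟩
    rw [this]
    exact hk k

end Pool.Agent.Results.MP_9277c3_lc.StrahlerSpaceH64
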