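import Pool.Agent.V7H70.TE.Main

/-!
# A time-space tradeoff for nondeterministic thrifty branching programs for tree evaluation

The tree evaluation problem (Cook, McKenzie, Wehr, Braverman, Santhanam): every leaf of a complete
binary tree of depth `d` has a value in `{0, …, k - 1}`, every inner node has a table of a function of
two variables, and the value of the root is to be computed.  A one-way deterministic pushdown
automaton solves it if the instance is written in postorder with values in unary, so if 1-DPDA is
contained in NL, then it is solved by nondeterministic branching programs of size polynomial in
`k` and `2 ^ d`.  A program is thrifty if on its accepting paths it reads an entry `table p a b` only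
if `a`, `b` are the true values of the children of `p`; all known algorithms which follow the
pebbling game are of this kind, and superpolynomial lower bounds for nondeterministic thrifty
programs were known only for read-once programs and for bitwise independent programs (Komarath,
Sarma) and for `d ≤ 3`.

Here the depth is arbitrary, and nothing is assumed on the order of the readings.  Let
`k ≥ 4 ^ (d + 1)`; then `k` and the length of the encodings are polynomially related, as the length is
between `k ^ 3` and `k ^ 4` (if `d ≥ 1`), and for `k = 4 ^ (d + 1)` they are also polynomially related
to the number `N = 2 ^ d` of the leaves.  If a thrifty program has at most `k ^ c` nodes, then on all accepting paths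
of some input the number of the visits to leaves is at least `(3 / 2) ^ (d / (32 c + 1)) 2 ^ d`, that
is, `N ^ (1 + Ω(1 / c))`.  In other words, programs which visit the leaves at most `r` times on the
average need `k ^ Ω(d / log r)` nodes.

Proof.  1. (Exchange argument.)  Take an accepting path for every choice of the values of the nodes.
Let these paths contain intervals with at least `b` missing children (children which are not read in
the interval of nodes which are read in it).  Consider the inputs whose intervals lead from the node
`s` to the node `t` of the program, and whose missing children contain the same `b`-element set `D`.
If two of them agree outside `D`, replace the interval of one path by that of the other.  The new path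
does not test any digit inconsistently, so it is an accepting path of some input, and as the program
is thrifty the two inputs have the same values at the nodes in `D`.  So there are at most `k ^ (n - b)`
such inputs, and `k ^ b ≤ C(2 ^ (d + 1), b) |S| ^ 2`.
2. (Combinatorics of words.)  Let a word of nodes of the tree contain all nodes, and let all its
intervals have at most `b` missing children.  Call a node single if the word cannot be divided in two
parts which both contain the whole subtree of the node.  Divide the word at any time `t`: a path
in the tree between two single nodes of level `8 b + 1`, the subtree of one of which has been read
completely at the time `t`, while that of the other has not, contains a missing child for one of the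
two parts.  If more than half of the nodes of this level are single, they contain the leaves of a
complete binary tree of depth `4 b + 1`, and by the argument for the cutwidth of the tree at some
time there are `2 b + 1` such paths without common edges, a contradiction.  So half of the subtrees
are read completely twice, in disjoint intervals; now use induction.
-/

set_option autoImplicit false

namespace Pool.Agent.Results.MP_9277c3_lc.ThriftyTimeSpaceH70

open Pool.Agent.V7H70.TE

/-- **Tree evaluation by nondeterministic thrifty branching programs.**  There is a one-way
deterministic pushdown automaton `M` (without `ε`-moves) with the following properties.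
(1) It accepts the encoding of an instance of depth `d` with values `0, …, k - 1` if and only if the
value of the root is `0`; the encodings have the same length, at most `2 ^ (d + 1) (k + 1) ^ 3`.
(2) Let `B` be a thrifty nondeterministic branching program which accepts exactly those encodings of
instances with the parameters `d`, `k ≥ 2` which `M` accepts. If each of them has an accepting path
with less than `(3 / 2) ^ (d / (8 b + 1)) 2 ^ d` visits to leaves, then `B` has at least
`(k ^ (b + 1) / C(2 ^ (d + 1), b + 1)) ^ (1 / 2)` nodes, where `C` is the binomial coefficient.
(3) If `k ≥ 4 ^ (d + 1)` and `B` has at most `k ^ c` nodes, then there is an accepted instance for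
which all accepting paths make at least `(3 / 2) ^ (d / (32 c + 1)) 2 ^ d` visits to leaves.  (The
exponents are rounded down.) -/
theorem result : ∃ (Q Γ : Type) (_ : Fintype Q) (_ : Fintype Γ) (M : DPDA Letter Q Γ),
    (∀ (d k : ℕ) (I : Inst k), (M.Accepts (word d I) ↔ (I.val d []).val = 0) ∧
      (word d I).length = (places d k).length ∧
      (places d k).length ≤ 2 ^ (d + 1) * (k + 1) ^ 3) ∧
    (∀ (d k b : ℕ) (S : Type) [Fintype S] (B : NBP (Fin (places d k).length) Letter S), 2 ≤ k →
      Thrifty d k B → Decides d k B M →
      (∀ I : Inst k, M.Accepts (word d I) → ∃ l, B.Accepting (letters d I) l ∧
        (leafVisits l : ℝ) < (3 / 2) ^ (d / (8 * b + 1)) * 2 ^ d) →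
      k ^ (b + 1) ≤ (2 ^ (d + 1)).choose (b + 1) * Fintype.card S ^ 2) ∧
    (∀ (d k c : ℕ) (S : Type) [Fintype S] (B : NBP (Fin (places d k).length) Letter S),
      4 ^ (d + 1) ≤ k → Thrifty d k B → Decides d k B M → Fintype.card S ≤ k ^ c →
      ∃ I : Inst k, M.Accepts (word d I) ∧ ∀ l, B.Accepting (letters d I) l →
        (3 / 2 : ℝ) ^ (d / (32 * c + 1)) * 2 ^ d ≤ leafVisits l) := by
  refine ⟨St, Bool, inferInstance, inferInstance, aut, fun d k I => ⟨accepts_word d I, ?_,
    length_places_le d k⟩, fun d k b S _ B hk hT hB h => tradeoff hk hT hB h,
    fun d k c S _ B hk hT hB hS => tradeoff' hk hT hB hS⟩
  unfold word
  rw [List.length_map]

end Pool.Agent.Results.MP_9277c3_lc.ThriftyTimeSpaceH70
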